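import Pool.Agent.Lib.MP_100a6c_lc.IfaceV

/-!
# Module VA: guessing models closed under an arbitrary rule
-/

universe u

open Cardinal

namespace Pool.Agent.Lib.MP_100a6c_lc.H57

/-- elements of a transitive set realise all smaller ranks -/
private theorem exists_rank {t : ZFSet.{u}} (ht : t.IsTransitive) :
    ∀ y : ZFSet.{u}, y ∈ t → ∀ a ≤ y.rank, ∃ z ∈ t, z.rank = a := by
  intro y
  induction y using ZFSet.inductionOn with
  | _ y ih =>
    intro hy a ha
    rcases ha.lt_or_eq with h | h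
    · obtain ⟨y', hy', h'⟩ := ZFSet.lt_rank_iff.1 h
      exact ih y' hy' (ht.subset_of_mem hy hy') a h'
    · exact ⟨y, hy, h.symm⟩

private theorem card_rank_le {t : ZFSet.{u}} (ht : t.IsTransitive) : t.rank.card ≤ t.card := by
  have h : ∀ a : Set.Iio t.rank, ∃ z : (t : Set ZFSet.{u}), z.1.rank = a.1 := by
    rintro ⟨a, ha⟩
    obtain ⟨y, hy, h'⟩ := ZFSet.lt_rank_iff.1 ha
    obtain ⟨z, hz, h''⟩ := exists_rank ht y hy a h'
    exact ⟨⟨z, hz⟩, h''⟩
  choose f hf using h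
  have hinj : Function.Injective f := by
    intro a b hab
    apply Subtype.ext
    rw [← hf a, ← hf b, hab]
  have h1 := Cardinal.mk_le_of_injective hinj
  rw [Cardinal.mk_Iio_ordinal] at h1
  have h2 : #((t : Set ZFSet.{u})) = lift.{u + 1, u} t.card := ZFSet.cardinalMk_coe_sort
  rw [h2] at h1
  exact Cardinal.lift_le.1 h1

private theorem rank_lt {t : ZFSet.{u}} (ht : t.IsTransitive) {ϑ : Cardinal.{u}}
    (h : t.card < ϑ) : t.rank < ϑ.ord :=
  Cardinal.lt_ord.2 ((card_rank_le ht).trans_lt h)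

/-- `H(θ)` -/
private noncomputable def HH (ϑ : Cardinal.{u}) : ZFSet.{u} :=
  ZFSet.sep (fun x => ∃ t : ZFSet.{u}, t.IsTransitive ∧ x ⊆ t ∧ t.card < ϑ)
    (ZFSet.vonNeumann ϑ.ord)

private theorem mem_HH {ϑ : Cardinal.{u}} {x : ZFSet.{u}} :
    x ∈ HH ϑ ↔ ∃ t : ZFSet.{u}, t.IsTransitive ∧ x ⊆ t ∧ t.card < ϑ := by
  rw [HH, ZFSet.mem_sep]
  constructor
  · exact fun h => h.2
  · rintro ⟨t, h1, h2, h3⟩
    refine ⟨?_, t, h1, h2, h3⟩
    rw [ZFSet.mem_vonNeumann]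
    exact (ZFSet.rank_mono h2).trans_lt (rank_lt h1 h3)

private theorem card_iUnion_le {α : Type u} {f : α → ZFSet.{u}} {a : Cardinal.{u}}
    (ha : ℵ₀ ≤ a) (h1 : #α ≤ a) (h2 : ∀ i, (f i).card ≤ a) : (ZFSet.iUnion f).card ≤ a := by
  have h := ZFSet.lift_card_iUnion_le_sum_card (f := f)
  rw [Cardinal.lift_id] at h
  refine h.trans ?_
  refine (Cardinal.sum_le_sum _ (fun _ => a) h2).trans ?_
  rw [Cardinal.sum_const']
  exact Cardinal.mul_le_of_le ha h1 le_rfl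

private theorem card_sUnion_le {D : ZFSet.{u}} {a : Cardinal.{u}}
    (ha : ℵ₀ ≤ a) (h1 : D.card ≤ a) (h2 : ∀ d ∈ D, d.card ≤ a) {w : ZFSet.{u}}
    (hw : ∀ y, y ∈ w ↔ ∃ d ∈ D, y ∈ d) : w.card ≤ a := by
  have e : w = ZFSet.iUnion (fun s : Shrink.{u} D => (((equivShrink D).symm s : D) : ZFSet.{u})) := by
    ext y
    rw [hw, ZFSet.mem_iUnion]
    constructor
    · rintro ⟨d, hd, hy⟩
      refine ⟨equivShrink D ⟨d, hd⟩, ?_⟩
      simpa using hy
    · rintro ⟨s, hs⟩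
      exact ⟨_, ((equivShrink D).symm s).2, hs⟩
  rw [e]
  exact card_iUnion_le ha h1 fun i => h2 _ ((equivShrink D).symm i).2

section closure

variable (H : ZFSet.{u}) (R : List ZFSet.{u} → ZFSet.{u})

/-- one step of the closure -/
private noncomputable def stepC (w : ZFSet.{u}) : ZFSet.{u} :=
  w ∪ ZFSet.iUnion (fun l : List (Shrink.{u} w) =>
    ZFSet.sep (fun y => y ∈ H) (R (l.map fun s => (((equivShrink w).symm s : w) : ZFSet.{u}))))

private theorem mem_stepC {w y : ZFSet.{u}} : y ∈ stepC H R w ↔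
    y ∈ w ∨ ∃ l : List ZFSet.{u}, (∀ x ∈ l, x ∈ w) ∧ y ∈ R l ∧ y ∈ H := by
  rw [stepC, ZFSet.mem_union, ZFSet.mem_iUnion]
  refine or_congr Iff.rfl ?_
  constructor
  · rintro ⟨l, hl⟩
    rw [ZFSet.mem_sep] at hl
    refine ⟨_, ?_, hl.1, hl.2⟩
    intro x hx
    rw [List.mem_map] at hx
    obtain ⟨s, _, rfl⟩ := hx
    exact ((equivShrink w).symm s).2
  · rintro ⟨l, hl, hy, hH⟩
    refine ⟨(l.attach.map fun x => equivShrink w ⟨x.1, hl x.1 x.2⟩), ?_⟩
    rw [ZFSet.mem_sep]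
    refine ⟨?_, hH⟩
    have : (l.attach.map fun x => equivShrink w ⟨x.1, hl x.1 x.2⟩).map
        (fun s => (((equivShrink w).symm s : w) : ZFSet.{u})) = l := by
      rw [List.map_map]
      have : ((fun s => (((equivShrink w).symm s : w) : ZFSet.{u})) ∘
          fun x : {x // x ∈ l} => equivShrink w ⟨x.1, hl x.1 x.2⟩) = Subtype.val := by
        funext x
        simp
      rw [this, List.attach_map_subtype_val]
    rw [this]
    exact hy

private theorem card_stepC_le {a : Cardinal.{u}} (ha : ℵ₀ ≤ a) (hR : ∀ l, (R l).card ≤ a)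
    {w : ZFSet.{u}} (hw : w.card ≤ a) : (stepC H R w).card ≤ a := by
  refine ZFSet.card_union_le.trans ?_
  have h1 : (ZFSet.iUnion (fun l : List (Shrink.{u} w) =>
    ZFSet.sep (fun y => y ∈ H)
      (R (l.map fun s => (((equivShrink w).symm s : w) : ZFSet.{u}))))).card ≤ a := by
    apply card_iUnion_le ha
    · refine (Cardinal.mk_list_le_max _).trans (max_le ha hw)
    · intro l
      refine le_trans (ZFSet.card_mono ?_) (hR (l.map fun s =>
        (((equivShrink w).symm s : w) : ZFSet.{u})))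
      intro y hy
      exact (ZFSet.mem_sep.1 hy).1
  exact Cardinal.add_le_of_le ha hw h1

private theorem exists_closure {a : Cardinal.{u}} (ha : ℵ₀ ≤ a) (hR : ∀ l, (R l).card ≤ a)
    {x : ZFSet.{u}} (hx : x ⊆ H) (hxa : x.card ≤ a) :
    ∃ w : ZFSet.{u}, w ⊆ H ∧ x ⊆ w ∧ w.card ≤ a ∧
      ∀ l : List ZFSet.{u}, (∀ z ∈ l, z ∈ w) → ∀ y ∈ R l, y ∈ H → y ∈ w := by
  let F : ℕ → ZFSet.{u} := fun n => (stepC H R)^[n] x
  have F0 : F 0 = x := rfl
  have Fs : ∀ n, F (n + 1) = stepC H R (F n) := fun n => Function.iterate_succ_apply' _ _ _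
  have Fsub : ∀ n, F n ⊆ H := by
    intro n
    induction n with
    | zero => exact hx
    | succ n ih =>
      rw [Fs]
      intro y hy
      rcases (mem_stepC H R).1 hy with h | ⟨_, _, _, h⟩
      · exact ih h
      · exact h
  have Fcard : ∀ n, (F n).card ≤ a := by
    intro n
    induction n with
    | zero => exact hxa
    | succ n ih =>
      rw [Fs]
      exact card_stepC_le H R ha hR ih
  have Fle : ∀ n, F n ⊆ F (n + 1) := by
    intro n y hy
    rw [Fs]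
    exact (mem_stepC H R).2 (Or.inl hy)
  have Fmono : ∀ m n, m ≤ n → F m ⊆ F n := by
    intro m n hmn
    induction hmn with
    | refl => exact fun y hy => hy
    | step _ ih => exact fun y hy => Fle _ (ih hy)
  let G : ULift.{u} ℕ → ZFSet.{u} := fun n => F n.down
  have hG : ∀ y, y ∈ ZFSet.iUnion G ↔ ∃ n, y ∈ F n := by
    intro y
    rw [ZFSet.mem_iUnion]
    exact ⟨fun ⟨n, h⟩ => ⟨n.down, h⟩, fun ⟨n, h⟩ => ⟨⟨n⟩, h⟩⟩
  refine ⟨ZFSet.iUnion G, ?_, ?_, ?_, ?_⟩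
  · intro y hy
    obtain ⟨n, h⟩ := (hG y).1 hy
    exact Fsub n h
  · intro y hy
    exact (hG y).2 ⟨0, hy⟩
  · apply card_iUnion_le ha
    · simpa using ha
    · exact fun i => Fcard i.down
  · intro l hl y hy hyH
    have : ∃ n, ∀ z ∈ l, z ∈ F n := by
      clear hy
      induction l with
      | nil => exact ⟨0, by simp⟩
      | cons b l ih =>
        obtain ⟨n, hn⟩ := ih fun z hz => hl z (List.mem_cons_of_mem _ hz)
        obtain ⟨m, hm⟩ := (hG b).1 (hl b List.mem_cons_self)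
        refine ⟨max n m, fun z hz => ?_⟩
        rcases List.mem_cons.1 hz with rfl | hz
        · exact Fmono m _ (le_max_right _ _) hm
        · exact Fmono n _ (le_max_left _ _) (hn z hz)
    obtain ⟨n, hn⟩ := this
    refine (hG y).2 ⟨n + 1, ?_⟩
    rw [Fs]
    exact (mem_stepC H R).2 (Or.inr ⟨l, hn, hy, hyH⟩)

end closure

theorem va (h1 : V1Statement.{u}) : VAStatement.{u} := by
  obtain ⟨hsub, -, -, hcard, htrans, -, -, hreg, hstd, hsucc⟩ := h1
  intro κ hκ hgmp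
  obtain ⟨c, hc, rfl, -⟩ := (hstd κ).1 hκ
  have hc0 : ℵ₀ ≤ c := hc.aleph0_le
  have hs0 : ℵ₀ ≤ Order.succ c := hc0.trans (Order.le_succ c)
  simp only [Str.gmp, iSup_Prop_eq, inf_Prop_eq, iInf_Prop_eq, himp_iff_imp] at hgmp
  obtain ⟨μ, hμ, hgmp⟩ := hgmp
  refine ⟨μ, hμ, ?_⟩
  have hμe : μ = (Order.succ c).ord.toZFSet := (hsucc μ c hc0).1 hμ
  have hμc : μ.card = Order.succ c := by
    rw [hμe, Ordinal.card_toZFSet, Cardinal.card_ord]
  have hκc : c.ord.toZFSet.card = c := by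
    rw [Ordinal.card_toZFSet, Cardinal.card_ord]
  intro N
  let ϑ : Cardinal.{u} := Order.succ (max (Order.succ c) (ZFSet.vonNeumann N.rank).card)
  have hϑr : ϑ.IsRegular := Cardinal.isRegular_succ (hs0.trans (le_max_left _ _))
  have hϑ1 : Order.succ c < ϑ := Order.lt_succ_of_le (le_max_left _ _)
  have hϑ2 : (ZFSet.vonNeumann N.rank).card < ϑ := Order.lt_succ_of_le (le_max_right _ _)
  refine ⟨HH ϑ, ?_, ?_, ?_, ?_⟩
  · exact mem_HH.2 ⟨_, ZFSet.isTransitive_vonNeumann _, ZFSet.subset_vonNeumann_self N, hϑ2⟩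
  · intro x hx y hy
    obtain ⟨t, ht, hxt, htc⟩ := mem_HH.1 hx
    exact mem_HH.2 ⟨t, ht, ht.subset_of_mem (hxt hy), htc⟩
  · intro x y hxy hy
    obtain ⟨t, ht, hyt, htc⟩ := mem_HH.1 hy
    exact mem_HH.2 ⟨t, ht, fun z hz => hyt (hxy hz), htc⟩
  · intro R hR
    rw [hκc] at hR
    let C : ZFSet.{u} := ZFSet.sep (fun d => d.card ≤ Order.succ c ∧
      ∀ l : List ZFSet.{u}, (∀ x ∈ l, x ∈ d) → ∀ y ∈ R l, y ∈ HH ϑ → y ∈ d)
      (ZFSet.powerset (HH ϑ))
    have hC : ∀ d, d ∈ C ↔ d ⊆ HH ϑ ∧ d.card ≤ Order.succ c ∧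
        ∀ l : List ZFSet.{u}, (∀ x ∈ l, x ∈ d) → ∀ y ∈ R l, y ∈ HH ϑ → y ∈ d := by
      intro d
      simp only [C, ZFSet.mem_sep, ZFSet.mem_powerset]
    have hregθ : V.isReg ϑ.ord.toZFSet := (hreg _).2 ⟨ϑ, hϑr, rfl⟩
    have hμθ : V.mem μ ϑ.ord.toZFSet := by
      show μ ∈ ϑ.ord.toZFSet
      rw [hμe, Ordinal.toZFSet_mem_toZFSet_iff]
      exact Cardinal.ord_lt_ord.2 hϑ1
    have hH : V.isH (HH ϑ) ϑ.ord.toZFSet := by
      simp only [Str.isH, iSup_Prop_eq, inf_Prop_eq, iInf_Prop_eq, bihimp_iff_iff, hsub, hcard,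
        htrans]
      intro x
      show x ∈ HH ϑ ↔ _
      rw [mem_HH]
      constructor
      · rintro ⟨t, ht, hxt, htc⟩
        refine ⟨t, ⟨ht, hxt⟩, t.card.ord.toZFSet, ?_, ?_⟩
        · show t.card.ord.toZFSet ∈ ϑ.ord.toZFSet
          rw [Ordinal.toZFSet_mem_toZFSet_iff]
          exact Cardinal.ord_lt_ord.2 htc
        · rw [Ordinal.card_toZFSet, Cardinal.card_ord]
      · rintro ⟨t, ⟨ht, hxt⟩, ρ, hρ, hle⟩
        refine ⟨t, ht, hxt, hle.trans_lt ?_⟩
        obtain ⟨a, ha, rfl⟩ := Ordinal.mem_toZFSet_iff.1 hρ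
        rw [Ordinal.card_toZFSet]
        exact Cardinal.lt_ord.1 ha
    have hclub : V.isClub C (HH ϑ) μ := by
      simp only [Str.isClub, iSup_Prop_eq, inf_Prop_eq, iInf_Prop_eq, bihimp_iff_iff, hsub,
        hcard, himp_iff_imp, sup_Prop_eq, hμc]
      refine ⟨⟨?_, ?_⟩, ?_⟩
      · intro d hd
        exact ⟨((hC d).1 hd).1, ((hC d).1 hd).2.1⟩
      · rintro x ⟨hx, hxc⟩
        obtain ⟨w, hw1, hw2, hw3, hw4⟩ := exists_closure (HH ϑ) R hs0 hR hx hxc
        exact ⟨w, (hC w).2 ⟨hw1, hw3, hw4⟩, hw2⟩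
      · rintro D ⟨⟨⟨hDC, ⟨d₀, hd₀⟩⟩, hDc⟩, hch⟩ w hw
        show w ∈ C
        have hw' : ∀ y, y ∈ w ↔ ∃ d ∈ D, y ∈ d := hw
        have hDC' : ∀ d ∈ D, d ∈ C := fun d hd => hDC hd
        rw [hC]
        refine ⟨?_, ?_, ?_⟩
        · intro y hy
          obtain ⟨d, hd, hyd⟩ := (hw' y).1 hy
          exact ((hC d).1 (hDC' d hd)).1 hyd
        · exact card_sUnion_le hs0 hDc (fun d hd => ((hC d).1 (hDC' d hd)).2.1) hw'
        · intro l hl y hy hyH
          have : ∃ d ∈ D, ∀ z ∈ l, z ∈ d := by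
            clear hy
            induction l with
            | nil => exact ⟨d₀, hd₀, by simp⟩
            | cons b l ih =>
              obtain ⟨d, hd, hd'⟩ := ih fun z hz => hl z (List.mem_cons_of_mem _ hz)
              obtain ⟨e, he, he'⟩ := (hw' b).1 (hl b List.mem_cons_self)
              rcases hch d e ⟨hd, he⟩ with h | h
              · refine ⟨e, he, fun z hz => ?_⟩
                rcases List.mem_cons.1 hz with rfl | hz
                · exact he'
                · exact h (hd' z hz)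
              · refine ⟨d, hd, fun z hz => ?_⟩
                rcases List.mem_cons.1 hz with rfl | hz
                · exact h he'
                · exact hd' z hz
          obtain ⟨d, hd, hd'⟩ := this
          exact (hw' y).2 ⟨d, hd, ((hC d).1 (hDC' d hd)).2.2 l hd' y hy hyH⟩
    obtain ⟨M, hM, hMg⟩ := hgmp ϑ.ord.toZFSet (HH ϑ) C ⟨⟨⟨hregθ, hμθ⟩, hH⟩, hclub⟩
    have hM' := (hC M).1 hM
    exact ⟨M, hM'.1, hM'.2.2, hMg⟩

end Pool.Agent.Lib.MP_100a6c_lc.H57
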